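import Mathlib

/-!
# Strong exposure by projection normals
-/

namespace Pool.Agent.Results.MP_3684f0_an.CommonExposure

open Filter Topology

universe u v

variable {H : Type u} [NormedAddCommGroup H] [InnerProductSpace ℝ H]

/-- `p` is the metric projection of `x` onto `C`: the unique point of `C` nearest to `x`. -/
def IsMetricProjection (C : Set H) (x p : H) : Prop :=
  p ∈ C ∧ ∀ y ∈ C, y ≠ p → ‖x - p‖ < ‖x - y‖

/-- `v` strongly exposes `p` in `C`: `p ∈ C`, `⟨v, p⟩ = sup_C ⟨v, ·⟩`, and every sequence in `C`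
along which `⟨v, ·⟩` tends to this supremum converges in norm to `p`. -/
def StronglyExposes (v p : H) (C : Set H) : Prop :=
  p ∈ C ∧ IsLUB ((fun y => inner ℝ v y) '' C) (inner ℝ v p) ∧
    ∀ y : ℕ → H, (∀ k, y k ∈ C) →
      Tendsto (fun k => inner ℝ v (y k)) atTop (𝓝 (sSup ((fun z => inner ℝ v z) '' C))) →
      Tendsto y atTop (𝓝 p)

/-- quadratic separation gives strong exposure and the projection property -/
lemma of_quadratic (C : Set H) (x p : H) (hp : p ∈ C) (K : ℝ) (hK : 0 < K)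
    (h : ∀ y ∈ C, inner ℝ (x - p) (y - p) ≤ - K * ‖y - p‖ ^ 2) :
    IsMetricProjection C x p ∧ StronglyExposes (x - p) p C := by
  have hle : ∀ y ∈ C, inner ℝ (x - p) y ≤ inner ℝ (x - p) p - K * ‖y - p‖ ^ 2 := by
    intro y hy
    have h1 := h y hy
    rw [inner_sub_right] at h1
    linarith
  have hlub : IsLUB ((fun y => inner ℝ (x - p) y) '' C) (inner ℝ (x - p) p) := by
    constructor
    · rintro _ ⟨y, hy, rfl⟩
      have h1 := hle y hy
      have h2 : 0 ≤ K * ‖y - p‖ ^ 2 := by positivity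
      simp only
      linarith
    · intro b hb
      exact hb ⟨p, hp, rfl⟩
  refine ⟨⟨hp, fun y hy hyp => ?_⟩, hp, hlub, ?_⟩
  · have h1 := h y hy
    have h2 : 0 < ‖y - p‖ := norm_pos_iff.2 (sub_ne_zero.2 hyp)
    have h3 : ‖x - y‖ ^ 2 = ‖x - p‖ ^ 2 - 2 * inner ℝ (x - p) (y - p) + ‖y - p‖ ^ 2 := by
      have : x - y = (x - p) - (y - p) := by abel
      rw [this, norm_sub_sq_real]
    have h4 : ‖x - p‖ ^ 2 < ‖x - y‖ ^ 2 := by
      have : 0 < ‖y - p‖ ^ 2 := by positivity
      have : 0 < K * ‖y - p‖ ^ 2 := by positivity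
      nlinarith
    exact lt_of_pow_lt_pow_left₀ 2 (norm_nonneg _) h4
  · intro y hy hlim
    have hne : (((fun z => inner ℝ (x - p) z) '' C)).Nonempty := ⟨_, p, hp, rfl⟩
    rw [hlub.csSup_eq hne] at hlim
    rw [tendsto_iff_norm_sub_tendsto_zero]
    have h1 : Tendsto (fun k => (inner ℝ (x - p) p - inner ℝ (x - p) (y k)) / K) atTop (𝓝 0) := by
      have := (tendsto_const_nhds (x := inner ℝ (x - p) p)).sub hlim
      rw [sub_self] at this
      have := this.div_const K
      rwa [zero_div] at this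
    have h2 : Tendsto (fun k => Real.sqrt ((inner ℝ (x - p) p - inner ℝ (x - p) (y k)) / K))
        atTop (𝓝 0) := by
      have := (Real.continuous_sqrt.tendsto 0).comp h1
      rwa [Real.sqrt_zero] at this
    refine squeeze_zero (fun k => norm_nonneg _) (fun k => ?_) h2
    apply Real.le_sqrt_of_sq_le
    rw [le_div_iff₀ hK]
    have := hle (y k) (hy k)
    linarith

/-- For finitely many nonempty compact sets (convexity is not needed) and every `K > 0` there is
one point `x` whose normals `x - p i` at suitable `p i ∈ C i` separate quadratically. -/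
theorem exists_quadratic {ι : Type v} [Fintype ι] (C : ι → Set H) (hne : ∀ i, (C i).Nonempty)
    (hc : ∀ i, IsCompact (C i)) (K : ℝ) (hK : 0 < K) :
    ∃ (x : H) (p : ι → H), ∀ i, p i ∈ C i ∧
      ∀ y ∈ C i, inner ℝ (x - p i) (y - p i) ≤ - K * ‖y - p i‖ ^ 2 := by
  classical
  set c : ℝ := 2 * K + 1 with hcdef
  -- the quadratic form
  let Q : (ι → H) → ℝ := fun y => c / 2 * ‖∑ i, y i‖ ^ 2 - 1 / 2 * ∑ i, ‖y i‖ ^ 2
  have hQc : Continuous Q := by
    refine Continuous.sub (continuous_const.mul ?_) (continuous_const.mul ?_)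
    · exact (continuous_norm.comp (continuous_finsetSum _ fun i _ => continuous_apply i)).pow 2
    · exact continuous_finsetSum _ fun i _ => (continuous_norm.comp (continuous_apply i)).pow 2
  have hcomp : IsCompact (Set.pi Set.univ C) := isCompact_univ_pi hc
  have hnonempty : (Set.pi Set.univ C).Nonempty := Set.univ_pi_nonempty_iff.2 hne
  obtain ⟨p, hp, hmax⟩ := hcomp.exists_isMaxOn hnonempty hQc.continuousOn
  have hpC : ∀ i, p i ∈ C i := fun i => hp i (Set.mem_univ i)
  refine ⟨c • ∑ i, p i, p, fun i => ⟨hpC i, fun y hy => ?_⟩⟩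
  set s := ∑ i, p i with hs
  set d := y - p i with hd
  have hmem : Function.update p i y ∈ Set.pi Set.univ C := by
    intro j _
    by_cases hj : j = i
    · subst hj; simpa using hy
    · rw [Function.update_of_ne hj]; exact hpC j
  have h1 : Q (Function.update p i y) ≤ Q p := hmax hmem
  have h2 : ∑ j, Function.update p i y j = s + d := by
    rw [Finset.sum_update_of_mem (Finset.mem_univ i), hs, hd,
      ← Finset.sum_sdiff (Finset.singleton_subset_iff.2 (Finset.mem_univ i)),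
      Finset.sum_singleton]
    abel
  have h3 : ∑ j, ‖Function.update p i y j‖ ^ 2 = ∑ j, ‖p j‖ ^ 2 + (‖y‖ ^ 2 - ‖p i‖ ^ 2) := by
    have h4 : (fun j => ‖Function.update p i y j‖ ^ 2) =
        Function.update (fun j => ‖p j‖ ^ 2) i (‖y‖ ^ 2) := by
      funext j
      by_cases hj : j = i
      · subst hj; simp
      · rw [Function.update_of_ne hj, Function.update_of_ne hj]
    rw [h4, Finset.sum_update_of_mem (Finset.mem_univ i),
      ← Finset.sum_sdiff (Finset.singleton_subset_iff.2 (Finset.mem_univ i)),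
      Finset.sum_singleton]
    ring
  have h5 : ‖s + d‖ ^ 2 = ‖s‖ ^ 2 + 2 * inner ℝ s d + ‖d‖ ^ 2 := norm_add_sq_real s d
  have h6 : ‖y‖ ^ 2 = ‖p i‖ ^ 2 + 2 * inner ℝ (p i) d + ‖d‖ ^ 2 := by
    have : y = p i + d := by rw [hd]; abel
    rw [this]
    exact norm_add_sq_real (p i) d
  have h7 : c / 2 * ‖s + d‖ ^ 2 - 1 / 2 * (∑ j, ‖p j‖ ^ 2 + (‖y‖ ^ 2 - ‖p i‖ ^ 2)) ≤
      c / 2 * ‖s‖ ^ 2 - 1 / 2 * ∑ j, ‖p j‖ ^ 2 := by
    have h8 : Q (Function.update p i y) =
        c / 2 * ‖s + d‖ ^ 2 - 1 / 2 * (∑ j, ‖p j‖ ^ 2 + (‖y‖ ^ 2 - ‖p i‖ ^ 2)) := by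
      simp only [Q]
      rw [h2, h3]
    have h9 : Q p = c / 2 * ‖s‖ ^ 2 - 1 / 2 * ∑ j, ‖p j‖ ^ 2 := rfl
    rw [← h8, ← h9]
    exact h1
  rw [h5, h6] at h7
  have h10 : inner ℝ (c • s - p i) d = c * inner ℝ s d - inner ℝ (p i) d := by
    rw [inner_sub_left, inner_smul_left]
    simp
  rw [h10]
  have h11 : K = (c - 1) / 2 := by rw [hcdef]; ring
  rw [h11]
  nlinarith

/-- **Positive answer to Q1**, and the same for every finite family of nonempty compact sets
(convex or not), with an arbitrarily large quadratic gap. -/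
theorem result :
    (∀ (H : Type u) [NormedAddCommGroup H] [InnerProductSpace ℝ H] [CompleteSpace H]
      (C₁ C₂ : Set H), C₁.Nonempty → C₂.Nonempty → IsCompact C₁ → IsCompact C₂ →
      Convex ℝ C₁ → Convex ℝ C₂ →
      ∃ x p₁ p₂ : H, IsMetricProjection C₁ x p₁ ∧ IsMetricProjection C₂ x p₂ ∧
        StronglyExposes (x - p₁) p₁ C₁ ∧ StronglyExposes (x - p₂) p₂ C₂) ∧
    (∀ (H : Type u) [NormedAddCommGroup H] [InnerProductSpace ℝ H] (ι : Type v) [Fintype ι]
      (C : ι → Set H), (∀ i, (C i).Nonempty) → (∀ i, IsCompact (C i)) → ∀ K : ℝ, 0 < K →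
      ∃ (x : H) (p : ι → H), ∀ i, IsMetricProjection (C i) x (p i) ∧
        StronglyExposes (x - p i) (p i) (C i) ∧
        ∀ y ∈ C i, inner ℝ (x - p i) (y - p i) ≤ - K * ‖y - p i‖ ^ 2) := by
  have key : ∀ (H : Type u) [NormedAddCommGroup H] [InnerProductSpace ℝ H] (ι : Type v)
      [Fintype ι] (C : ι → Set H), (∀ i, (C i).Nonempty) → (∀ i, IsCompact (C i)) →
      ∀ K : ℝ, 0 < K →
      ∃ (x : H) (p : ι → H), ∀ i, IsMetricProjection (C i) x (p i) ∧
        StronglyExposes (x - p i) (p i) (C i) ∧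
        ∀ y ∈ C i, inner ℝ (x - p i) (y - p i) ≤ - K * ‖y - p i‖ ^ 2 := by
    intro H _ _ ι _ C hne hc K hK
    obtain ⟨x, p, h⟩ := exists_quadratic C hne hc K hK
    refine ⟨x, p, fun i => ?_⟩
    have h1 := of_quadratic (C i) x (p i) (h i).1 K hK (h i).2
    exact ⟨h1.1, h1.2, (h i).2⟩
  refine ⟨?_, key⟩
  intro H _ _ _ C₁ C₂ h1 h2 hc1 hc2 _ _
  obtain ⟨x, p, h⟩ := exists_quadratic (ι := Bool) (fun b => cond b C₁ C₂)
    (fun b => by cases b <;> simpa) (fun b => by cases b <;> simpa) 1 one_pos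
  have k1 := of_quadratic C₁ x (p true) (h true).1 1 one_pos (h true).2
  have k2 := of_quadratic C₂ x (p false) (h false).1 1 one_pos (h false).2
  exact ⟨x, p true, p false, k1.1, k2.1, k1.2, k2.2⟩

end Pool.Agent.Results.MP_3684f0_an.CommonExposure
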